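import Pool.Agent.H21.TX.LDXa

/-!
# Row LDX of the board tx_modules (helper21)

The degree of an algebraic function as an intersection number.
-/

set_option autoImplicit false

open MvPolynomial
open Pool.Agent.H12.ZD (pmap)
open Pool.Agent.H18.HIT Pool.Agent.H18.HX Pool.Agent.H18.VZ
open Pool.Agent.H8.ZA (HFam Const NA)
open Pool.Agent.H8.TD (lc dg Wsp Cop dh)
open Pool.Agent.H8.TX

namespace Pool.Agent.H21.TX

section

variable {k : Type} [Field k]

theorem eval_hom {N D : ℕ} (F : Po N k) (hF : F.IsHomogeneous D) (a : k) (w : Fin N → k) :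
    eval (fun i => a * w i) F = a ^ D * eval w F := by
  rw [eval_eq', eval_eq', Finset.mul_sum]
  refine Finset.sum_congr rfl fun s hs => ?_
  have h1 : ∑ i, s i = D := by
    have := hF (mem_support_iff.1 hs)
    rw [← this, Finsupp.weight_apply, Finsupp.sum_fintype _ _ (fun i => by simp)]
    simp
  have h2 : ∏ i, (a * w i) ^ s i = a ^ D * ∏ i, w i ^ s i := by
    simp only [mul_pow]
    rw [Finset.prod_mul_distrib, Finset.prod_pow_eq_pow_sum, h1]
  rw [h2]
  ring

theorem form_ne [Infinite k] {D : ℕ} (F : Po 4 k) (hF : F.IsHomogeneous D) (hX : ¬ X 0 ∣ F) :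
    ∃ al be : k, eval (![0, al, be, 1] : Fin 4 → k) F ≠ 0 := by
  have h1 : (finSuccEquiv k 3 F).coeff 0 ≠ 0 := by
    intro h
    apply hX
    have h2 : Polynomial.X ∣ finSuccEquiv k 3 F := Polynomial.X_dvd_iff.2 h
    obtain ⟨G, hG⟩ := h2
    refine ⟨(finSuccEquiv k 3).symm G, ?_⟩
    apply (finSuccEquiv k 3).injective
    rw [hG, map_mul, finSuccEquiv_X_zero, AlgEquiv.apply_symm_apply]
  have h2 : (X 2 : Po 3 k) * (finSuccEquiv k 3 F).coeff 0 ≠ 0 := mul_ne_zero (X_ne_zero 2) h1
  obtain ⟨w, hw⟩ : ∃ w : Fin 3 → k, eval w ((X 2 : Po 3 k) * (finSuccEquiv k 3 F).coeff 0) ≠ 0 := by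
    by_contra hc
    push Not at hc
    apply h2
    apply MvPolynomial.funext
    intro w
    rw [hc w, map_zero]
  rw [map_mul, eval_X] at hw
  have hw2 : w 2 ≠ 0 := left_ne_zero_of_mul hw
  have hw3 : eval w ((finSuccEquiv k 3 F).coeff 0) ≠ 0 := right_ne_zero_of_mul hw
  have h3 : eval (Fin.cons 0 w : Fin 4 → k) F ≠ 0 := by
    rw [eval_eq_eval_mv_eval', ← Polynomial.coeff_zero_eq_eval_zero, Polynomial.coeff_map]
    exact hw3
  refine ⟨w 0 / w 2, w 1 / w 2, fun h => h3 ?_⟩
  have h4 : (Fin.cons 0 w : Fin 4 → k) =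
      fun i => w 2 * (![0, w 0 / w 2, w 1 / w 2, 1] : Fin 4 → k) i := by
    funext i
    fin_cases i
    · simp
    · show w 0 = w 2 * (w 0 / w 2)
      field_simp
    · show w 1 = w 2 * (w 1 / w 2)
      field_simp
    · show w 2 = w 2 * 1
      ring
  rw [h4, eval_hom F hF, h, mul_zero]

theorem coeff_lin {κ : Type} [Field κ] [Algebra k κ] {N D : ℕ} (F : Po N k)
    (hF : F.IsHomogeneous D) (c d : Fin N → κ) :
    (aeval (fun i => Polynomial.C (c i) + Polynomial.C (d i) * Polynomial.X :
      Fin N → Polynomial κ) F).coeff D = aeval d F := by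
  classical
  have hdeg : ∀ i, (Polynomial.C (c i) + Polynomial.C (d i) * Polynomial.X).natDegree ≤ 1 := by
    intro i
    compute_degree
  have hco : ∀ i, (Polynomial.C (c i) + Polynomial.C (d i) * Polynomial.X).coeff 1 = d i := by
    intro i
    simp [Polynomial.coeff_C]
  have key : ∀ (T : Finset (Fin N)) (e : Fin N → ℕ),
      (∏ i ∈ T, (Polynomial.C (c i) + Polynomial.C (d i) * Polynomial.X) ^ e i).natDegree ≤
        ∑ i ∈ T, e i ∧
      (∏ i ∈ T, (Polynomial.C (c i) + Polynomial.C (d i) * Polynomial.X) ^ e i).coeff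
        (∑ i ∈ T, e i) = ∏ i ∈ T, d i ^ e i := by
    intro T e
    induction T using Finset.induction_on with
    | empty => simp
    | insert a T ha ih =>
      rw [Finset.prod_insert ha, Finset.sum_insert ha, Finset.prod_insert ha]
      have h1 : ((Polynomial.C (c a) + Polynomial.C (d a) * Polynomial.X) ^ e a).natDegree ≤
          e a := by
        refine le_trans Polynomial.natDegree_pow_le ?_
        have := hdeg a
        nlinarith
      have h2 : ((Polynomial.C (c a) + Polynomial.C (d a) * Polynomial.X) ^ e a).coeff (e a) =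
          d a ^ e a := by
        have := Polynomial.coeff_pow_of_natDegree_le (m := e a) (hdeg a)
        rw [mul_one] at this
        rw [this, hco]
      refine ⟨le_trans Polynomial.natDegree_mul_le (add_le_add h1 ih.1), ?_⟩
      rw [Polynomial.coeff_mul_add_eq_of_natDegree_le h1 ih.1, h2, ih.2]
  rw [aeval_def, eval₂_eq', aeval_def, eval₂_eq', Polynomial.finsetSum_coeff]
  refine Finset.sum_congr rfl fun s hs => ?_
  have h1 : ∑ i, s i = D := by
    have := hF (mem_support_iff.1 hs)
    rw [← this, Finsupp.weight_apply, Finsupp.sum_fintype _ _ (fun i => by simp)]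
    simp
  have h2 := (key Finset.univ (fun i => s i)).2
  rw [h1] at h2
  rw [IsScalarTower.algebraMap_apply k κ (Polynomial κ), Polynomial.algebraMap_eq,
    Polynomial.coeff_C_mul, h2]

/-- the shear -/
noncomputable def shr (al be : k) : Po 3 k ≃ₐ[k] Po 3 k :=
  AlgEquiv.ofAlgHom
    (aeval (![X 0 + C al * X 2, X 1 + C be * X 2, X 2] : Fin 3 → Po 3 k))
    (aeval (![X 0 - C al * X 2, X 1 - C be * X 2, X 2] : Fin 3 → Po 3 k))
    (by
      apply MvPolynomial.algHom_ext
      intro i
      fin_cases i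
      · simp
      · simp
      · simp)
    (by
      apply MvPolynomial.algHom_ext
      intro i
      fin_cases i
      · simp
      · simp
      · simp)

theorem shr_apply (al be : k) (f : Po 3 k) : shr al be f =
    aeval (![X 0 + C al * X 2, X 1 + C be * X 2, X 2] : Fin 3 → Po 3 k) f := rfl

/-- there is a coefficient which is not divisible by `X 0` -/
theorem ex_coef {P p q : Po 5 k} {r D n : ℕ} {Cf : ℕ → Po 4 k} {B : Po 4 k}
    (npd : Npd P r p q D n Cf B) : ∃ j0, j0 ≤ n ∧ ¬ (X 0 : Po 4 k) ∣ Cf j0 := by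
  classical
  by_contra hc
  push Not at hc
  have h1 : ∀ j, ∃ c, Cf j = X 0 * c := by
    intro j
    by_cases hj : j ≤ n
    · exact hc j hj
    · exact ⟨0, by rw [npd.zero j (by omega), mul_zero]⟩
  choose c hcj using h1
  have h2 : ∑ j ∈ Finset.range (n + 1), Polynomial.C (Cf j) * Polynomial.X ^ j =
      Polynomial.C (X 0 : Po 4 k) *
        ∑ j ∈ Finset.range (n + 1), Polynomial.C (c j) * Polynomial.X ^ j := by
    rw [Finset.mul_sum]
    refine Finset.sum_congr rfl fun j _ => ?_
    rw [hcj j, Polynomial.C_mul, mul_assoc]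
  have hcoef : ∀ (e : ℕ → Po 4 k), (∑ j ∈ Finset.range (n + 1),
      Polynomial.C (e j) * Polynomial.X ^ j).coeff n = e n := by
    intro e
    rw [Polynomial.finsetSum_coeff, Finset.sum_eq_single n]
    · rw [Polynomial.coeff_C_mul_X_pow, if_pos rfl]
    · intro j _ hj
      rw [Polynomial.coeff_C_mul_X_pow, if_neg (Ne.symm hj)]
    · intro h
      exact absurd (Finset.mem_range.2 (Nat.lt_succ_self n)) h
  rcases npd.irr.isUnit_or_isUnit h2 with h | h
  · rw [Polynomial.isUnit_C] at h
    obtain ⟨a, _, ha⟩ := MvPolynomial.isUnit_iff_eq_C_of_isReduced.1 h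
    have h3 := congrArg (MvPolynomial.totalDegree) ha
    rw [totalDegree_X, totalDegree_C] at h3
    omega
  · have h3 := Polynomial.natDegree_eq_zero_of_isUnit h
    have h4 : (∑ j ∈ Finset.range (n + 1), Polynomial.C (c j) * Polynomial.X ^ j).coeff n = 0 :=
      Polynomial.coeff_eq_zero_of_natDegree_lt (by
        rw [h3]
        have := npd.pos
        omega)
    rw [hcoef] at h4
    apply npd.top
    rw [hcj n, h4, mul_zero]

end

/-- evaluation of a polynomial given by its coefficients -/
theorem ev_sum {A K : Type} [CommRing A] [CommRing K] (φ : A →+* K) (ψ : K) (n : ℕ) (e : ℕ → A) :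
    Polynomial.eval₂ φ ψ (∑ j ∈ Finset.range (n + 1), Polynomial.C (e j) * Polynomial.X ^ j) =
      ∑ j ∈ Finset.range (n + 1), φ (e j) * ψ ^ j := by
  rw [Polynomial.eval₂_finsetSum]
  refine Finset.sum_congr rfl fun j _ => ?_
  rw [Polynomial.eval₂_mul, Polynomial.eval₂_C, Polynomial.eval₂_X_pow]

theorem pf_LDX (hLDA : T_LDA) (hLDB : T_LDB) (hDHI : T_DHI) (hADJ : Pool.Agent.H8.TD.T_ADJ) :
    T_LDX := by
  classical
  intro k K _ _ _ _ P p q r D n Cf B ξ hyp gp hq npd hD
  have hinf : Infinite k := Infinite.of_injective (fun n : ℕ => (n : k)) Nat.cast_injective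
  obtain ⟨j0, hj0, hX⟩ := ex_coef npd
  obtain ⟨al, be, hab⟩ := form_ne (Cf j0) (npd.hom j0) hX
  obtain ⟨s, hs⟩ : ∃ s : Fin 5 → k, s = ![0, 0, 1, 0, -al] := ⟨_, rfl⟩
  obtain ⟨s', hs'⟩ : ∃ s' : Fin 5 → k, s' = ![0, 0, 0, 1, -be] := ⟨_, rfl⟩
  have hm0 : lc s ξ = ξ 2 - algebraMap k K al * ξ 4 := by
    unfold lc
    rw [hs, Fin.sum_univ_five]
    simp [Algebra.smul_def]
    ring
  have hm1 : lc s' ξ = ξ 3 - algebraMap k K be * ξ 4 := by
    unfold lc
    rw [hs', Fin.sum_univ_five]
    simp [Algebra.smul_def]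
    ring
  refine ⟨s, s', ?_⟩
  obtain ⟨m0, hm0'⟩ : ∃ m0, m0 = lc s ξ := ⟨_, rfl⟩
  obtain ⟨m1, hm1'⟩ : ∃ m1, m1 = lc s' ξ := ⟨_, rfl⟩
  rw [← hm0', ← hm1']
  rw [← hm0'] at hm0
  rw [← hm1'] at hm1
  obtain ⟨t, ht⟩ : ∃ t, t = ξ 4 := ⟨_, rfl⟩
  have e2 : ξ 2 = m0 + algebraMap k K al * t := by rw [hm0, ht]; ring
  have e3 : ξ 3 = m1 + algebraMap k K be * t := by rw [hm1, ht]; ring
  obtain ⟨x, hx⟩ : ∃ x : Fin 3 → K, x = ![m0, m1, t] := ⟨_, rfl⟩
  obtain ⟨m, hm⟩ : ∃ m : Fin 2 → K, m = ![m0, m1] := ⟨_, rfl⟩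
  -- the relation
  obtain ⟨ψ, hψ⟩ : ∃ ψ, ψ = aeval ξ p / aeval ξ q := ⟨_, rfl⟩
  rw [← hψ]
  have hrel : ∑ j ∈ Finset.range (n + 1), aeval ξ (up (Cf j)) * ψ ^ j = 0 := by
    obtain ⟨c, hc⟩ := npd.rel
    have h1 := congrArg (aeval ξ) hc
    rw [map_mul, root hyp gp, zero_mul, map_sum] at h1
    have h2 : (aeval ξ q) ^ n * ∑ j ∈ Finset.range (n + 1), aeval ξ (up (Cf j)) * ψ ^ j = 0 := by
      rw [← h1, Finset.mul_sum]
      refine Finset.sum_congr rfl fun j hj => ?_
      have hjn : j ≤ n := by
        rw [Finset.mem_range] at hj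
        omega
      rw [map_mul, map_mul, map_pow, map_pow, hψ, div_pow]
      have h3 : (aeval ξ q) ^ n = (aeval ξ q) ^ j * (aeval ξ q) ^ (n - j) := by
        rw [← pow_add]
        congr 1
        omega
      rw [h3]
      have h4 : (aeval ξ q) ^ j ≠ 0 := pow_ne_zero _ hq
      field_simp
    exact (mul_eq_zero.1 h2).resolve_left (pow_ne_zero _ hq)
  -- the shear and the evaluation
  have hτ : ∀ f : Po 4 k, aeval ξ (up f) = aeval x (shr al be (dh f)) := by
    intro f
    have h1 : (aeval ξ : Po 5 k →ₐ[k] K).comp (rename Fin.succ : Po 4 k →ₐ[k] Po 5 k) =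
        ((aeval x : Po 3 k →ₐ[k] K).comp (shr al be).toAlgHom).comp dh := by
      apply MvPolynomial.algHom_ext
      intro i
      rw [AlgHom.comp_apply, AlgHom.comp_apply, AlgHom.comp_apply, rename_X, aeval_X]
      unfold dh
      rw [aeval_X]
      show ξ i.succ = aeval x (shr al be _)
      rw [hx]
      fin_cases i
      · show ξ 1 = aeval _ (shr al be 1)
        rw [map_one, map_one, gp.one]
      · show ξ 2 = aeval _ (shr al be (X 0))
        rw [shr_apply, aeval_X]
        simp [e2]
      · show ξ 3 = aeval _ (shr al be (X 1))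
        rw [shr_apply, aeval_X]
        simp [e3]
      · show ξ 4 = aeval _ (shr al be (X 2))
        rw [shr_apply, aeval_X]
        simp [ht]
    exact congrArg (fun g : Po 4 k →ₐ[k] K => g f) h1
  have hξx2 : ξ 2 ∈ IntermediateField.adjoin k (Set.range x) := by
    rw [e2]
    refine add_mem (IntermediateField.subset_adjoin k _ ⟨0, by rw [hx]; rfl⟩)
      (mul_mem (IntermediateField.algebraMap_mem _ _)
        (IntermediateField.subset_adjoin k _ ⟨2, by rw [hx]; rfl⟩))
  have hξx3 : ξ 3 ∈ IntermediateField.adjoin k (Set.range x) := by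
    rw [e3]
    refine add_mem (IntermediateField.subset_adjoin k _ ⟨1, by rw [hx]; rfl⟩)
      (mul_mem (IntermediateField.algebraMap_mem _ _)
        (IntermediateField.subset_adjoin k _ ⟨2, by rw [hx]; rfl⟩))
  have hξx4 : ξ 4 ∈ IntermediateField.adjoin k (Set.range x) := by
    rw [← ht]
    exact IntermediateField.subset_adjoin k _ ⟨2, by rw [hx]; rfl⟩
  have hind := indep hyp gp x hξx2 hξx3 hξx4
  -- the polynomials
  obtain ⟨Ψ, hΨ⟩ : ∃ Ψ : Polynomial (Po 3 k), Ψ =
    ∑ j ∈ Finset.range (n + 1), Polynomial.C (dh (Cf j)) * Polynomial.X ^ j := ⟨_, rfl⟩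
  have hΨi : Irreducible Ψ := by
    rw [hΨ]
    exact hDHI k D n j0 Cf npd.hom hj0 hX npd.irr
  obtain ⟨Ψ', hΨ'⟩ : ∃ Ψ' : Polynomial (Po 3 k), Ψ' =
    Ψ.map (shr al be).toRingEquiv.toRingHom := ⟨_, rfl⟩
  have hΨ'i : Irreducible Ψ' := by
    rw [hΨ']
    exact (MulEquiv.irreducible_iff (Polynomial.mapEquiv (shr al be).toRingEquiv)).2 hΨi
  have hev : Polynomial.eval₂ (aeval x : Po 3 k →ₐ[k] K).toRingHom ψ Ψ' = 0 := by
    rw [hΨ', Polynomial.eval₂_map, hΨ, ev_sum, ← hrel]
    refine Finset.sum_congr rfl fun j _ => ?_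
    rw [hτ]
    rfl
  have hdeg1 : 1 ≤ Ψ'.natDegree := by
    by_contra hc
    have h0 : Ψ'.natDegree = 0 := by omega
    rw [Polynomial.eq_C_of_natDegree_eq_zero h0, Polynomial.eval₂_C] at hev
    have h1 : Ψ'.coeff 0 = 0 := by
      apply hind
      rw [map_zero]
      exact hev
    apply hΨ'i.ne_zero
    rw [Polynomial.eq_C_of_natDegree_eq_zero h0, h1, Polynomial.C_0]
  -- the field generated by two of the functions
  obtain ⟨μ, hμ⟩ : ∃ μ : Fin 2 → IntermediateField.adjoin k (Set.range m), μ =
    fun i => ⟨m i, IntermediateField.subset_adjoin k _ ⟨i, rfl⟩⟩ := ⟨_, rfl⟩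
  have hμv : ∀ i, ((μ i : IntermediateField.adjoin k (Set.range m)) : K) = m i := by
    intro i
    rw [hμ]
  have hμind : AlgebraicIndependent k μ := by
    have h1 : AlgebraicIndependent k m := by
      have h2 : m = x ∘ Fin.castSucc := by
        rw [hm, hx]
        funext i
        fin_cases i
        · rfl
        · rfl
      rw [h2]
      exact hind.comp _ (Fin.castSucc_injective 2)
    have h3 : m = (IntermediateField.adjoin k (Set.range m)).val ∘ μ := by
      funext i
      exact (hμv i).symm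
    rw [h3] at h1
    exact ((IntermediateField.adjoin k (Set.range m)).val.algebraicIndependent_iff
      (RingHom.injective _)).1 h1
  have hμtop : IntermediateField.adjoin k (Set.range μ) = ⊤ := by
    apply IntermediateField.lift_injective (IntermediateField.adjoin k (Set.range m))
    rw [IntermediateField.lift_adjoin, IntermediateField.lift_top]
    congr 1
    ext z
    constructor
    · rintro ⟨_, ⟨i, rfl⟩, rfl⟩
      exact ⟨i, (hμv i).symm⟩
    · rintro ⟨i, rfl⟩
      exact ⟨μ i, ⟨i, rfl⟩, hμv i⟩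
  have hmem : ∀ z ∈ IntermediateField.adjoin k (Set.range m),
      z ∈ IntermediateField.adjoin (IntermediateField.adjoin k (Set.range m)) {t} := by
    intro z hz
    exact IntermediateField.algebraMap_mem
      (IntermediateField.adjoin (IntermediateField.adjoin k (Set.range m)) {t})
      (⟨z, hz⟩ : IntermediateField.adjoin k (Set.range m))
  have htm : t ∈ IntermediateField.adjoin (IntermediateField.adjoin k (Set.range m)) {t} :=
    IntermediateField.mem_adjoin_simple_self _ t
  have hk : ∀ a : k, algebraMap k K a ∈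
      IntermediateField.adjoin (IntermediateField.adjoin k (Set.range m)) {t} := by
    intro a
    exact hmem _ (IntermediateField.algebraMap_mem _ a)
  have hξ2 : ξ 2 ∈ IntermediateField.adjoin (IntermediateField.adjoin k (Set.range m)) {t} := by
    rw [e2]
    exact add_mem (hmem _ (IntermediateField.subset_adjoin k _ ⟨0, by rw [hm]; rfl⟩))
      (mul_mem (hk _) htm)
  have hξ3 : ξ 3 ∈ IntermediateField.adjoin (IntermediateField.adjoin k (Set.range m)) {t} := by
    rw [e3]
    exact add_mem (hmem _ (IntermediateField.subset_adjoin k _ ⟨1, by rw [hm]; rfl⟩))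
      (mul_mem (hk _) htm)
  have hξ4 : ξ 4 ∈ IntermediateField.adjoin (IntermediateField.adjoin k (Set.range m)) {t} := by
    rw [← ht]
    exact htm
  have htr := transc hyp gp m t hξ2 hξ3 hξ4
  have hfd := fin_adjoin hyp gp _ t hξ2 hξ3 hξ4
  have hirr := hLDB k (IntermediateField.adjoin k (Set.range m)) μ hμind hμtop Ψ' hΨ'i hdeg1
  obtain ⟨g, hg⟩ : ∃ g : Po 3 k →ₐ[k] Polynomial (IntermediateField.adjoin k (Set.range m)), g =
    aeval (![Polynomial.C (μ 0), Polynomial.C (μ 1), Polynomial.X] :
      Fin 3 → Polynomial (IntermediateField.adjoin k (Set.range m))) := ⟨_, rfl⟩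
  rw [← hg] at hirr
  have hgx : ((Polynomial.aeval t : Polynomial (IntermediateField.adjoin k (Set.range m)) →ₐ[
      IntermediateField.adjoin k (Set.range m)] K).toRingHom).comp g.toRingHom =
      (aeval x : Po 3 k →ₐ[k] K).toRingHom := by
    apply MvPolynomial.ringHom_ext
    · intro a
      show Polynomial.aeval t (g (C a)) = aeval x (C a)
      rw [aeval_C, ← MvPolynomial.algebraMap_eq, g.commutes,
        IsScalarTower.algebraMap_apply k (IntermediateField.adjoin k (Set.range m))
          (Polynomial (IntermediateField.adjoin k (Set.range m))), Polynomial.algebraMap_eq,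
        Polynomial.aeval_C]
      rfl
    · intro i
      show Polynomial.aeval t (g (X i)) = aeval x (X i)
      rw [aeval_X, hg, aeval_X, hx]
      fin_cases i
      · show Polynomial.aeval t (Polynomial.C (μ 0)) = m0
        rw [Polynomial.aeval_C]
        show ((μ 0 : IntermediateField.adjoin k (Set.range m)) : K) = m0
        rw [hμv, hm]
        rfl
      · show Polynomial.aeval t (Polynomial.C (μ 1)) = m1
        rw [Polynomial.aeval_C]
        show ((μ 1 : IntermediateField.adjoin k (Set.range m)) : K) = m1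
        rw [hμv, hm]
        rfl
      · show Polynomial.aeval t Polynomial.X = t
        rw [Polynomial.aeval_X]
  have hev2 : Polynomial.eval₂ (Polynomial.aeval t :
      Polynomial (IntermediateField.adjoin k (Set.range m)) →ₐ[
        IntermediateField.adjoin k (Set.range m)] K).toRingHom ψ (Ψ'.map g.toRingHom) = 0 := by
    rw [Polynomial.eval₂_map, hgx, hev]
  have hdeg2 : 1 ≤ (Ψ'.map g.toRingHom).natDegree := by
    by_contra hc
    have h0 : (Ψ'.map g.toRingHom).natDegree = 0 := by omega
    rw [Polynomial.eq_C_of_natDegree_eq_zero h0, Polynomial.eval₂_C] at hev2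
    have h1 : (Ψ'.map g.toRingHom).coeff 0 = 0 := by
      apply transcendental_iff_injective.1 htr
      rw [map_zero]
      exact hev2
    apply hirr.ne_zero
    rw [Polynomial.eq_C_of_natDegree_eq_zero h0, h1, Polynomial.C_0]
  have hdeg3 : D ≤ ((Ψ'.map g.toRingHom).coeff j0).natDegree := by
    obtain ⟨d0, hd0⟩ : ∃ d0 : Fin 4 → k, d0 = ![0, al, be, 1] := ⟨_, rfl⟩
    have h1 : Ψ.coeff j0 = dh (Cf j0) := by
      rw [hΨ, Polynomial.finsetSum_coeff, Finset.sum_eq_single j0]
      · rw [Polynomial.coeff_C_mul_X_pow, if_pos rfl]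
      · intro j _ hj
        rw [Polynomial.coeff_C_mul_X_pow, if_neg (Ne.symm hj)]
      · intro h
        exact absurd (Finset.mem_range.2 (by omega)) h
    have h2 : (Ψ'.map g.toRingHom).coeff j0 = g (shr al be (dh (Cf j0))) := by
      rw [Polynomial.coeff_map, hΨ', Polynomial.coeff_map, h1]
      rfl
    have h3 : (g.comp (shr al be).toAlgHom).comp dh = (aeval (fun i =>
        Polynomial.C ((![1, μ 0, μ 1, 0] :
          Fin 4 → IntermediateField.adjoin k (Set.range m)) i) +
        Polynomial.C (algebraMap k (IntermediateField.adjoin k (Set.range m)) (d0 i)) *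
          Polynomial.X : Fin 4 → Polynomial (IntermediateField.adjoin k (Set.range m))) :
        Po 4 k →ₐ[k] Polynomial (IntermediateField.adjoin k (Set.range m))) := by
      apply MvPolynomial.algHom_ext
      intro i
      rw [AlgHom.comp_apply, AlgHom.comp_apply, aeval_X]
      unfold dh
      rw [aeval_X]
      show g (shr al be _) = _
      have hC : ∀ a : k, g (C a) = Polynomial.C (algebraMap k
          (IntermediateField.adjoin k (Set.range m)) a) := by
        intro a
        rw [← MvPolynomial.algebraMap_eq, g.commutes,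
          IsScalarTower.algebraMap_apply k (IntermediateField.adjoin k (Set.range m))
            (Polynomial (IntermediateField.adjoin k (Set.range m))), Polynomial.algebraMap_eq]
      have hg0 : g (X 0) = Polynomial.C (μ 0) := by rw [hg, aeval_X]; rfl
      have hg1 : g (X 1) = Polynomial.C (μ 1) := by rw [hg, aeval_X]; rfl
      have hg2 : g (X 2) = Polynomial.X := by rw [hg, aeval_X]; rfl
      rw [hd0]
      fin_cases i
      · show g (shr al be 1) = Polynomial.C 1 + Polynomial.C (algebraMap k _ 0) * Polynomial.X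
        rw [map_one, map_one, map_zero, map_zero, zero_mul, add_zero, map_one]
      · show g (shr al be (X 0)) = Polynomial.C (μ 0) + Polynomial.C (algebraMap k _ al) *
          Polynomial.X
        rw [shr_apply, aeval_X]
        show g (X 0 + C al * X 2) = _
        rw [map_add, map_mul, hC, hg0, hg2]
      · show g (shr al be (X 1)) = Polynomial.C (μ 1) + Polynomial.C (algebraMap k _ be) *
          Polynomial.X
        rw [shr_apply, aeval_X]
        show g (X 1 + C be * X 2) = _
        rw [map_add, map_mul, hC, hg1, hg2]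
      · show g (shr al be (X 2)) = Polynomial.C 0 + Polynomial.C (algebraMap k _ 1) *
          Polynomial.X
        rw [shr_apply, aeval_X]
        show g (X 2) = _
        rw [hg2, map_one, map_zero, map_one, zero_add, one_mul]
    have h4 : g (shr al be (dh (Cf j0))) = (aeval (fun i =>
        Polynomial.C ((![1, μ 0, μ 1, 0] :
          Fin 4 → IntermediateField.adjoin k (Set.range m)) i) +
        Polynomial.C (algebraMap k (IntermediateField.adjoin k (Set.range m)) (d0 i)) *
          Polynomial.X : Fin 4 → Polynomial (IntermediateField.adjoin k (Set.range m))))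
        (Cf j0) := congrArg (fun f : Po 4 k →ₐ[k] Polynomial
          (IntermediateField.adjoin k (Set.range m)) => f (Cf j0)) h3
    have h5 := coeff_lin (Cf j0) (npd.hom j0) (![1, μ 0, μ 1, 0] :
      Fin 4 → IntermediateField.adjoin k (Set.range m))
      (fun i => algebraMap k (IntermediateField.adjoin k (Set.range m)) (d0 i))
    refine Polynomial.le_natDegree_of_ne_zero ?_
    rw [h2, h4, h5]
    have h6 : aeval (fun i => algebraMap k (IntermediateField.adjoin k (Set.range m)) (d0 i))
        (Cf j0) = algebraMap k (IntermediateField.adjoin k (Set.range m))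
          (eval d0 (Cf j0)) := by
      rw [← MvPolynomial.coe_aeval_eq_eval]
      exact MvPolynomial.aeval_algebraMap_apply (IntermediateField.adjoin k (Set.range m)) d0 (Cf j0)
    rw [h6, hd0]
    intro h7
    exact hab ((map_eq_zero _).1 h7)
  have hfinal := hLDA (IntermediateField.adjoin k (Set.range m)) K t ψ (Ψ'.map g.toRingHom) D j0
    htr hfd hirr hD hdeg3 hdeg2 hev2
  rw [hADJ k K (Set.range m) ψ] at hfinal
  have hr : insert ψ (Set.range m) = {ψ, m0, m1} := by
    rw [hm]
    ext z
    simp only [Set.mem_insert_iff, Set.mem_range, Set.mem_singleton_iff]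
    constructor
    · rintro (h | ⟨i, hi⟩)
      · exact Or.inl h
      · fin_cases i
        · exact Or.inr (Or.inl hi.symm)
        · exact Or.inr (Or.inr hi.symm)
    · rintro (h | h | h)
      · exact Or.inl h
      · exact Or.inr ⟨0, h.symm⟩
      · exact Or.inr ⟨1, h.symm⟩
  rw [hr] at hfinal
  exact hfinal

end Pool.Agent.H21.TX
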