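import Pool.Agent.H8.TX.Targets

/-!
# Row LDX of the board tx_modules (helper21), part a: the field of functions of the threefold
-/

set_option autoImplicit false

open MvPolynomial
open Pool.Agent.H12.ZD (pmap)
open Pool.Agent.H18.HIT Pool.Agent.H18.HX Pool.Agent.H18.VZ
open Pool.Agent.H8.ZA (HFam Const NA)
open Pool.Agent.H8.TD (lc dg Wsp Cop dh)
open Pool.Agent.H8.TX

namespace Pool.Agent.H21.TX

section

variable {k K : Type} [Field k] [Field K] [Algebra k K] {P : Po 5 k} {r : ℕ} {ξ : Fin 5 → K}

theorem root (hyp : Hyp P r) (gp : Gp P ξ) : aeval ξ P = 0 :=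
  (gp.iff r P hyp.hom).2 dvd_rfl

theorem fin_of_mem (hyp : Hyp P r) (gp : Gp P ξ) (F : IntermediateField k K)
    (h2 : ξ 2 ∈ F) (h3 : ξ 3 ∈ F) (h4 : ξ 4 ∈ F) : FiniteDimensional F K := by
  classical
  have h1 : ξ 1 ∈ F := by
    rw [gp.one]
    exact F.one_mem
  have hmem : ∀ i : Fin 4, ξ i.succ ∈ F := by
    intro i
    fin_cases i
    · exact h1
    · exact h2
    · exact h3
    · exact h4
  obtain ⟨w, hw⟩ : ∃ w : Fin 4 → F, w = fun i => ⟨ξ i.succ, hmem i⟩ := ⟨_, rfl⟩
  have hint : IsIntegral F (ξ 0) := by
    refine ⟨(finSuccEquiv k 4 P).map (aeval w : Po 4 k →ₐ[k] F).toRingHom, hyp.mon.map _, ?_⟩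
    rw [Polynomial.eval₂_map]
    have h := root hyp gp
    have hξ : ξ = Fin.cons (ξ 0) (fun i => ξ i.succ) := by
      funext i
      refine Fin.cases ?_ (fun j => ?_) i
      · rfl
      · rfl
    have e1 : ∀ Q : Po 5 k, Polynomial.eval₂ ((algebraMap F K).comp
        (aeval w : Po 4 k →ₐ[k] F).toRingHom) (ξ 0) (finSuccEquiv k 4 Q) = aeval ξ Q := by
      intro Q
      induction Q using MvPolynomial.induction_on with
      | C a =>
        rw [finSuccEquiv_apply]
        simp
      | add p q hp hq => rw [map_add, Polynomial.eval₂_add, hp, hq, map_add]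
      | mul_X p i hp =>
        rw [map_mul, Polynomial.eval₂_mul, hp, map_mul]
        congr 1
        refine Fin.cases ?_ (fun j => ?_) i
        · rw [finSuccEquiv_X_zero, Polynomial.eval₂_X, aeval_X]
        · rw [finSuccEquiv_X_succ, Polynomial.eval₂_C, aeval_X]
          show ((aeval w (X j) : F) : K) = _
          rw [aeval_X, hw]
    rw [e1, h]
  have htop : IntermediateField.adjoin F {ξ 0} = ⊤ := by
    rw [eq_top_iff]
    intro x _
    have hx : x ∈ IntermediateField.adjoin k (Set.range ξ) := by
      rw [gp.top]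
      exact IntermediateField.mem_top
    have hle : IntermediateField.adjoin k (Set.range ξ) ≤
        (IntermediateField.adjoin F {ξ 0}).restrictScalars k := by
      rw [IntermediateField.adjoin_le_iff]
      rintro _ ⟨i, rfl⟩
      refine Fin.cases ?_ (fun j => ?_) i
      · exact IntermediateField.mem_adjoin_simple_self F (ξ 0)
      · exact (IntermediateField.adjoin F {ξ 0}).algebraMap_mem ⟨ξ j.succ, hmem j⟩
    exact hle hx
  have h5 : FiniteDimensional F (IntermediateField.adjoin F {ξ 0}) :=
    IntermediateField.adjoin.finiteDimensional hint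
  rw [htop] at h5
  exact Module.Finite.equiv (IntermediateField.topEquiv (F := F) (E := K)).toLinearEquiv

/-- the degree over a field with a further element -/
theorem fin_adjoin (hyp : Hyp P r) (gp : Gp P ξ) (κ : IntermediateField k K) (t : K)
    (h2 : ξ 2 ∈ IntermediateField.adjoin κ {t}) (h3 : ξ 3 ∈ IntermediateField.adjoin κ {t})
    (h4 : ξ 4 ∈ IntermediateField.adjoin κ {t}) :
    FiniteDimensional (IntermediateField.adjoin κ {t}) K :=
  fin_of_mem hyp gp ((IntermediateField.adjoin κ {t}).restrictScalars k) h2 h3 h4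

open scoped IntermediateField.algebraAdjoinAdjoin

theorem alg_adjoin (S : Set K) [FiniteDimensional (IntermediateField.adjoin k S) K] :
    Algebra.IsAlgebraic (Algebra.adjoin k S) K :=
  Algebra.IsAlgebraic.trans (Algebra.adjoin k S) (IntermediateField.adjoin k S) K

theorem alg_adjoin' (S : Set K) [Algebra.IsAlgebraic (IntermediateField.adjoin k S) K] :
    Algebra.IsAlgebraic (Algebra.adjoin k S) K :=
  Algebra.IsAlgebraic.trans (Algebra.adjoin k S) (IntermediateField.adjoin k S) K

/-- three generators up to algebraic elements are independent -/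
theorem indep (hyp : Hyp P r) (gp : Gp P ξ) (x : Fin 3 → K)
    (h2 : ξ 2 ∈ IntermediateField.adjoin k (Set.range x))
    (h3 : ξ 3 ∈ IntermediateField.adjoin k (Set.range x))
    (h4 : ξ 4 ∈ IntermediateField.adjoin k (Set.range x)) : AlgebraicIndependent k x := by
  have := fin_of_mem hyp gp (IntermediateField.adjoin k (Set.range x)) h2 h3 h4
  have := alg_adjoin (k := k) (Set.range x)
  refine (Algebra.IsAlgebraic.isTranscendenceBasis_of_le_trdeg_of_finite k x ?_).1
  rw [gp.trd]
  simp

theorem transc (hyp : Hyp P r) (gp : Gp P ξ) (m : Fin 2 → K) (t : K)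
    (h2 : ξ 2 ∈ IntermediateField.adjoin (IntermediateField.adjoin k (Set.range m)) {t})
    (h3 : ξ 3 ∈ IntermediateField.adjoin (IntermediateField.adjoin k (Set.range m)) {t})
    (h4 : ξ 4 ∈ IntermediateField.adjoin (IntermediateField.adjoin k (Set.range m)) {t}) :
    Transcendental (IntermediateField.adjoin k (Set.range m)) t := by
  intro hal
  have hfin := fin_adjoin hyp gp (IntermediateField.adjoin k (Set.range m)) t h2 h3 h4
  have h5 : Algebra.IsAlgebraic (IntermediateField.adjoin k (Set.range m))
      (IntermediateField.adjoin (IntermediateField.adjoin k (Set.range m)) {t}) := by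
    rw [IntermediateField.isAlgebraic_adjoin_iff_isAlgebraic]
    intro x hx
    rw [Set.mem_singleton_iff.1 hx]
    exact hal
  have h6 : Algebra.IsAlgebraic (IntermediateField.adjoin k (Set.range m)) K :=
    Algebra.IsAlgebraic.trans _
      (IntermediateField.adjoin (IntermediateField.adjoin k (Set.range m)) {t}) K
  have h7 := alg_adjoin' (k := k) (Set.range m)
  have h8 := Algebra.IsAlgebraic.trdeg_le_cardinalMk (R := k) (A := K) (Set.range m)
  rw [gp.trd] at h8
  have h9 : Cardinal.mk (Set.range m) ≤ 2 := by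
    refine le_trans Cardinal.mk_range_le ?_
    simp
  have h10 := le_trans h8 h9
  norm_num at h10

end

end Pool.Agent.H21.TX
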